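import Pool.Agent.W93.AU11
import Pool.Agent.H560R3.GB.Defs

/-!
# Goldbach's conjecture for almost all elements of an automatic set

Definitions used (all in `Pool.Agent.H560R3.GB`): `C₂`: the twin prime constant
`∏_{p > 2} (1 - 1 / (p - 1) ^ 2)`; `sing n`: the singular series
`2 C₂ ∏_{p ∣ n, p > 2} (p - 1) / (p - 2)`; `g n`: the number of ordered representations of `n` as a
sum of two primes; `HL n = sing n * n / log ^ 2 n`: the prediction of Hardy and Littlewood for `g n`.
From Mathlib: `DFA ℕ σ`: the deterministic automata with the set of states `σ` and the alphabet `ℕ`;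
`M.accepts`: the set of the words accepted by `M`; `Nat.digits b v`: the digits of `v` in base `b`, from the
least significant to the most significant one.
-/

set_option autoImplicit false

namespace Pool.Agent.Results.MP_7b7e48_nt.AutomaticSets

open Finset Pool.Agent.H560R3.GB

/-- `n` is a sum of two distinct primes, and the number of its representations as a sum of two primes
agrees with the prediction of Hardy and Littlewood up to a relative error of at most `ε`. -/
def Holds (ε : ℝ) (n : ℕ) : Prop :=
  |(g n : ℝ) - HL n| ≤ ε * HL n ∧ ∃ p q : ℕ, p.Prime ∧ q.Prime ∧ p ≠ q ∧ p + q = n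

open Classical in
/-- The number of the integers `0 ≤ v < N` with the property `E` whose base `b` digits are accepted by the
automaton `M`. -/
noncomputable def num {σ : Type} (b : ℕ) (M : DFA ℕ σ) (N : ℕ) (E : ℕ → Prop) : ℝ :=
  (((range N).filter fun v => Nat.digits b v ∈ M.accepts ∧ E v).card : ℝ)

/-- Let `S` be a `b`-automatic set: the set of the integers `v ≥ 0` whose base `b` digits are accepted by a finite
automaton `M`. Suppose that `S` is not sparse: the number of the elements of `S` below `N` is not bounded by a power of
`log N`. Let `κ ≠ 0`, `B`, `U` and `ε > 0` be fixed. Then, if `N` is large, we have for all the integers `c` with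
`|c| ≤ B N` and for all the elements `v < N` of `S` with at most `#(S ∩ [0, N)) / log ^ U N` exceptions: if `n = c + κ v`
is positive and even, then `n` is a sum of two distinct primes, and the number of representations of `n` as a sum of
two primes agrees with the prediction of Hardy and Littlewood up to a relative error of at most `ε`. -/
theorem result {σ : Type} [Finite σ] (b : ℕ) (hb : 2 ≤ b) (M : DFA ℕ σ)
    (hM : ∀ k : ℕ, ∃ᶠ N : ℕ in Filter.atTop, Real.log N ^ k < num b M N (fun _ => True))
    (κ : ℤ) (hκ : κ ≠ 0) (B U : ℕ) (ε : ℝ) (hε : 0 < ε) :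
    ∃ N₀ : ℕ, ∀ N, N₀ ≤ N → ∀ c : ℤ, |c| ≤ B * N →
      num b M N (fun v => 0 < c + κ * v ∧ Even (c + κ * v) ∧ ¬ Holds ε (c + κ * v).toNat) ≤
        num b M N (fun _ => True) / Real.log N ^ U := by
  classical
  have := Fintype.ofFinite σ
  have hnum : ∀ N, num b M N (fun _ => True) = (((range N).filter fun v => Nat.digits b v ∈ M.accepts).card : ℝ) := by
    intro N
    unfold num
    congr 2
    ext v
    simp only [mem_filter, and_true]
  obtain ⟨N₀, h⟩ := Pool.Agent.W93.AU.au_final b hb M (fun k => (hM k).mono fun N hN => by rw [hnum] at hN; exact hN) κ hκ B U ε hε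
  refine ⟨N₀, fun N hN c hc => ?_⟩
  rw [hnum]
  refine le_trans ?_ (h N hN c hc)
  unfold num
  apply Nat.cast_le.2
  apply card_le_card
  intro v hv
  simp only [mem_filter] at hv ⊢
  exact ⟨hv.1, hv.2.1, hv.2.2.1, hv.2.2.2.1.two_dvd, hv.2.2.2.2⟩

end Pool.Agent.Results.MP_7b7e48_nt.AutomaticSets
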