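import Pool.Agent.W93.HD9
import Pool.Agent.H560R3.GB.Defs

/-!
# Every large integer becomes a sum of two distinct primes by a bounded number of changes of digits

Definition used (in `Pool.Agent.H560R3.GB`): `g n`: the number of ordered representations of `n` as a
sum of two primes.
-/

set_option autoImplicit false

namespace Pool.Agent.Results.MP_7b7e48_nt.BoundedDigitChanges

open Finset Pool.Agent.H560R3.GB

/-- The digit number `i` (counted from the right, beginning with `0`) of `n` in base `b`. -/
def digit (b i n : ℕ) : ℕ := n / b ^ i % b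

/-- The Hamming distance of the digit sequences of `m` and `n` in base `b` (leading zeros are allowed). -/
noncomputable def dist (b m n : ℕ) : ℕ∞ := {i : ℕ | digit b i m ≠ digit b i n}.encard

/-- For every base `b ≥ 2` there are an integer `t` and a real `c > 0` such that every sufficiently large
integer `N` can be turned, by changing at most `t` of its digits in base `b`, into an integer `n` which is
a sum of two distinct primes; moreover `n` has at least `c n / log ^ 2 n` representations as a sum of two
primes (which is the right order of magnitude). -/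
theorem result (b : ℕ) (hb : 2 ≤ b) : ∃ (t N₀ : ℕ) (c : ℝ), 0 < c ∧ ∀ N : ℕ, N₀ ≤ N →
    ∃ n : ℕ, dist b n N ≤ t ∧ c * n / Real.log n ^ 2 ≤ g n ∧
      ∃ p q : ℕ, p.Prime ∧ q.Prime ∧ p ≠ q ∧ p + q = n := by
  obtain ⟨t, N₀, c, hc, h⟩ := Pool.Agent.W93.HD.hd_main b hb
  refine ⟨t, N₀, c, hc, fun N hN => ?_⟩
  obtain ⟨n, ⟨P, hP1, hP2⟩, h1, h2⟩ := h N hN
  refine ⟨n, ?_, h1, h2⟩
  have hsub : {i : ℕ | digit b i n ≠ digit b i N} ⊆ (P : Set ℕ) := by
    intro i hi
    by_contra hcon
    exact hi (hP2 i (by simpa using hcon))
  unfold dist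
  refine (Set.encard_le_encard hsub).trans ?_
  rw [Set.encard_coe_eq_coe_finsetCard]
  exact_mod_cast hP1

end Pool.Agent.Results.MP_7b7e48_nt.BoundedDigitChanges
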