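import Pool.Agent.W25.UB.Final
import Pool.Agent.W25.UB.Dich
import Pool.Agent.W356.UB.C2p
import Pool.Agent.W688.UB.KST

/-!
# Goldbach numbers have bounded gaps, or almost all even numbers are Polignac numbers

There are `δ, C₁ > 0` such that for every window `(u, u + L]` there is `C` such that for every `η > 0`
and EVERY large `N`: either some even number at distance `≤ C` from `2 N` is a sum of two primes in at
least `N ^ (1 - η)` ways, or for all but `C₁ L ^ (1 - δ)` of the `k` in the window the number `2 k` is a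
difference of two primes `p + 2 k`, `p`, for at least `N ^ (1 - η)` primes `p ≤ 3 N`. Hence: either the
gaps between the even numbers that are sums of two primes are bounded, or in every interval of length `L`
all but `C₁ L ^ (1 - δ)` of the even numbers are differences of two primes infinitely often.

Proof: the coloured Maynard-Tao theorem uniform in `N` for the forms `N + n + h` and `N - n + h`, with
four classes (`Pool.Agent.W25.UB.thmV`, pair factor below `4`): two classes of forms `N + n + h` and two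
classes of forms `N - n + h` with the shifts of a complete bipartite difference graph
(Kovari, Sos, Turan).
-/

namespace Pool.Agent.Results.MP_7b7e48_nt.BoundedGapsOrPolignac

open Filter

theorem result : ∃ δ C₁ : ℝ, 0 < δ ∧ 0 < C₁ ∧
    (∀ L u : ℕ, 1 ≤ L → ∃ C : ℕ, ∀ η : ℝ, 0 < η → ∀ᶠ N : ℕ in atTop,
      (∃ c : ℤ, |c| ≤ C ∧ (N : ℝ) ^ (1 - η) ≤ ({p : ℕ | p ≤ 3 * N ∧ p.Prime ∧
        ∃ q : ℕ, q.Prime ∧ (p : ℤ) + q = 2 * N + c}.ncard : ℝ)) ∨
      ({k : ℕ | u < k ∧ k ≤ u + L ∧ ({p : ℕ | p ≤ 3 * N ∧ p.Prime ∧ (p + 2 * k).Prime}.ncard : ℝ) <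
        (N : ℝ) ^ (1 - η)}.ncard : ℝ) ≤ C₁ * (L : ℝ) ^ (1 - δ)) ∧
    ((∃ C : ℕ, ∀ η : ℝ, 0 < η → ∀ᶠ N : ℕ in atTop, ∃ c : ℤ, |c| ≤ C ∧
      (N : ℝ) ^ (1 - η) ≤ ({p : ℕ | p ≤ 3 * N ∧ p.Prime ∧
        ∃ q : ℕ, q.Prime ∧ (p : ℤ) + q = 2 * N + c}.ncard : ℝ)) ∨
    ∀ L u : ℕ, 1 ≤ L → ({k : ℕ | u < k ∧ k ≤ u + L ∧ ¬ ∀ η : ℝ, 0 < η → ∃ᶠ x : ℕ in atTop,
      (x : ℝ) ^ (1 - η) ≤ ({p : ℕ | p ≤ x ∧ p.Prime ∧ (p + 2 * k).Prime}.ncard : ℝ)}.ncard : ℝ) ≤
        C₁ * (L : ℝ) ^ (1 - δ)) := by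
  obtain ⟨δ, C₁, hδ, hC₁, h⟩ := Pool.Agent.W25.UB.dich_scale
    (Pool.Agent.W356.UB.C2p.main Pool.Agent.W25.UB.thmV Pool.Agent.W688.UB.KST.main)
  exact ⟨δ, C₁, hδ, hC₁, h, Pool.Agent.W25.UB.dich_global δ C₁ h⟩

end Pool.Agent.Results.MP_7b7e48_nt.BoundedGapsOrPolignac
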