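import Mathlib
import Pool.Agent.W218.PG.DenseP

set_option autoImplicit false

/-!
Even numbers `N_i = q + p_i` (`i = 1, ..., k`) with distinct primes, where the common summand `q` is taken from an
arbitrary given set of primes of positive relative density among the primes up to `x`, and `x` may be as small as
`(log N)^k` times `log log N`.
-/

namespace Pool.Agent.Results.MP_7b7e48_nt.DenseSmallSummands

open Finset

/-- the number of `q ∈ T` such that all `N_i - q` are primes larger than `q` -/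
def P {k : ℕ} (T : Finset ℕ) (N : Fin k → ℕ) : ℕ := (T.filter (fun q : ℕ => ∀ i, (N i - q).Prime ∧ q < N i - q)).card

/-- the number of `q ∈ T` for which no `N_i - q` has a prime factor `≤ z` -/
def R {k : ℕ} (z : ℕ) (T : Finset ℕ) (N : Fin k → ℕ) : ℕ :=
  (T.filter (fun q : ℕ => ∀ i, ∀ p ≤ z, p.Prime → ¬ p ∣ N i - q)).card

/-- the product of `1 - 1/p` over the primes `p ≤ z` -/
noncomputable def V (z : ℕ) : ℝ := ∏ p ∈ (Icc 1 z).filter Nat.Prime, (1 - 1 / (p : ℝ))

/-- the product of the primes `p ≤ z` -/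
def primorial (z : ℕ) : ℕ := ∏ p ∈ (Icc 1 z).filter Nat.Prime, p

open Classical in
theorem result (k : ℕ) (hk : 1 ≤ k) (c δ : ℝ) (hc : 0 < c) (hδ : 0 < δ) (θ : ℝ) (hθ : θ < 1) :
    ∃ κ : ℝ, 0 < κ ∧ ∃ M₀ : ℕ, ∀ M : ℕ, M₀ ≤ M → ∀ z : ℕ, (primorial z : ℝ) ≤ κ * M →
      ∀ x : ℕ, c * Real.log M ^ k ≤ x / Real.log x → (x : ℝ) ≤ κ * M →
      ∀ T : Finset ℕ, T ⊆ (Icc 3 x).filter Nat.Prime → δ * (x / Real.log x) ≤ T.card →
      κ * M ^ k ≤ (((Fintype.piFinset (fun _ : Fin k => Ioc M (2 * M))).filter (fun N =>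
        (∀ i, Even (N i)) ∧ κ * T.card / Real.log M ^ k ≤ P T N ∧
        θ * (R z T N / V z ^ k) / Real.log M ^ k ≤ P T N)).card : ℝ) := by
  obtain ⟨κ, hκ, hκ4, M₀, h⟩ := Pool.Agent.W218.PG.denseP k hk (-1) (Or.inr rfl) c δ hc hδ θ hθ
  refine ⟨κ, hκ, M₀, fun M hM z hz x hcx hxκ T hT hTc => ?_⟩
  refine (h M hM z hz x hcx hxκ T hT hTc).trans (le_of_eq ?_)
  congr 2
  apply filter_congr
  intro N hN
  have hsm : ∀ q ∈ T, ∀ i, 2 * q < N i := by
    intro q hq i
    have h1 := hT hq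
    rw [mem_filter, mem_Icc] at h1
    have h2 := (mem_Ioc.1 (Fintype.mem_piFinset.1 hN i)).1
    have h3 : (x : ℝ) ≤ 1 / 4 * M := hxκ.trans (mul_le_mul_of_nonneg_right hκ4 (Nat.cast_nonneg M))
    have h4 : 4 * x ≤ M := by
      have : (4 : ℝ) * x ≤ M := by linarith
      exact_mod_cast this
    omega
  have hval : ∀ q ∈ T, ∀ i, ((-1 : ℤ) * (q : ℤ) + N i).toNat = N i - q := by
    intro q _ i
    omega
  have hval2 : ∀ q ∈ T, ∀ i, (-1 : ℤ) * (q : ℤ) + N i = ((N i - q : ℕ) : ℤ) := by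
    intro q hq i
    have := hsm q hq i
    omega
  have e1 : Pool.Agent.W218.PG.PQ (-1) T N = P T N := by
    unfold Pool.Agent.W218.PG.PQ P
    congr 1
    apply filter_congr
    intro q hq
    apply forall_congr'
    intro i
    rw [hval q hq i]
    constructor
    · intro h
      exact ⟨h, by have := hsm q hq i; omega⟩
    · intro h; exact h.1
  have e2 : Pool.Agent.W218.PG.RQ (-1) z T N = R z T N := by
    unfold Pool.Agent.W218.PG.RQ R
    congr 1
    apply filter_congr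
    intro q hq
    apply forall_congr'
    intro i
    rw [hval2 q hq i]
    simp only [Int.natCast_dvd_natCast]
  rw [e1, e2]
  rfl

end Pool.Agent.Results.MP_7b7e48_nt.DenseSmallSummands
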