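import Pool.Agent.W93.RD4
import Pool.Agent.H560R3.GB.Defs

/-!
# Goldbach's conjecture for almost all integers with independent digits, in every translate

Definitions used (all in `Pool.Agent.H560R3.GB`): `C₂`: the twin prime constant
`∏_{p > 2} (1 - 1 / (p - 1) ^ 2)`; `sing n`: the singular series
`2 C₂ ∏_{p ∣ n, p > 2} (p - 1) / (p - 2)`; `g n`: the number of ordered representations of `n` as a
sum of two primes; `HL n = sing n * n / log ^ 2 n`: the prediction of Hardy and Littlewood for `g n`.
-/

set_option autoImplicit false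

namespace Pool.Agent.Results.MP_7b7e48_nt.RandomDigits

open Finset Pool.Agent.H560R3.GB

/-- `n` is a sum of two distinct primes, and the number of its representations as a sum of two primes
agrees with the prediction of Hardy and Littlewood up to a relative error of at most `ε`. -/
def Holds (ε : ℝ) (n : ℕ) : Prop :=
  |(g n : ℝ) - HL n| ≤ ε * HL n ∧ ∃ p q : ℕ, p.Prime ∧ q.Prime ∧ p ≠ q ∧ p + q = n

/-- The integer `c + d 0 + d 1 * b + ... + d (k - 1) * b ^ (k - 1)`. -/
def value (b : ℕ) (c : ℤ) {k : ℕ} (d : Fin k → ℕ) : ℤ := c + ∑ j, (d j : ℤ) * (b : ℤ) ^ (j : ℕ)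

open Classical in
/-- The probability of the event `E` if the digits `d 0, ..., d (k - 1)` are chosen independently
of each other from `{0, ..., H - 1}`, and `d j` is equal to `a` with probability `w j a`. -/
noncomputable def Prob (H k : ℕ) (w : ℕ → ℕ → ℝ) (E : (Fin k → ℕ) → Prop) : ℝ :=
  ∑ d ∈ Fintype.piFinset (fun _ : Fin k => range H), if E d then ∏ j : Fin k, w j (d j) else 0

/-- Let `b ≥ 2`, `H`, `B`, `U`, `η > 0` and `ε > 0` be fixed and let `k` be large. Let the digits
`d 0, ..., d (k - 1)` be independent random elements of `{0, ..., H - 1}` with arbitrary distributions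
(which may depend on the position and on `k`), none of which takes a value with a probability larger than
`1 - η`, and let `c` be an arbitrary integer with `|c| ≤ B b ^ k`. Then, with a probability of at least
`1 - 1 / k ^ U`, the integer `n = c + ∑ d j b ^ j` has the following property: if `n` is positive and even,
then `n` is a sum of two distinct primes, and the number of representations of `n` as a sum of two primes
agrees with the prediction of Hardy and Littlewood up to a relative error of at most `ε`. (For instance
this applies to the uniform distribution on `{c + ∑ d j b ^ j : d j ∈ D j}`, where `D 0, ..., D (k - 1)`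
are arbitrary sets of at least two digits each.) -/
theorem result (b H B U : ℕ) (hb : 2 ≤ b) (η ε : ℝ) (hη : 0 < η) (hε : 0 < ε) :
    ∃ k₀ : ℕ, ∀ k : ℕ, k₀ ≤ k → ∀ w : ℕ → ℕ → ℝ,
      (∀ j < k, (∀ a, 0 ≤ w j a ∧ w j a ≤ 1 - η) ∧ ∑ a ∈ range H, w j a = 1) →
      ∀ c : ℤ, |c| ≤ B * (b : ℤ) ^ k →
        Prob H k w (fun d => 0 < value b c d ∧ Even (value b c d) ∧ ¬ Holds ε (value b c d).toNat) ≤
          1 / (k : ℝ) ^ U := by
  classical
  obtain ⟨k₀, h0⟩ := Pool.Agent.W93.RD.rd_final b H B U hb η ε hη hε
  refine ⟨k₀, fun k hk w hw c hc => ?_⟩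
  have hval : ∀ d : Fin k → ℕ, value b c d = c + (Pool.Agent.W93.RD.val b d : ℤ) := by
    intro d
    unfold value Pool.Agent.W93.RD.val
    push_cast
    rfl
  have h1 := h0 k hk w (fun j hj a => ((hw j hj).1 a).1) (fun j hj a => ((hw j hj).1 a).2) (fun j hj => (hw j hj).2) c hc
    (fun d => 0 < value b c d ∧ Even (value b c d) ∧ ¬ Holds ε (value b c d).toNat) (by
      intro d hd
      rw [hval] at hd
      exact ⟨hd.1, hd.2.1.two_dvd, hd.2.2⟩)
  refine le_trans (le_of_eq ?_) h1
  unfold Prob Pool.Agent.W93.RD.Str Pool.Agent.W93.RD.pw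
  apply sum_congr rfl
  intro d _
  split_ifs <;> rfl

end Pool.Agent.Results.MP_7b7e48_nt.RandomDigits
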