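import Pool.Agent.W93.GB4

/-!
# Goldbach's conjecture for almost all members of arbitrary families of nearly minimal additive energy

Definitions used (all in `Pool.Agent.H560R3.GB`): `C₂`: the twin prime constant
`∏_{p > 2} (1 - 1 / (p - 1) ^ 2)`; `sing n`: the singular series
`2 C₂ ∏_{p ∣ n, p > 2} (p - 1) / (p - 2)`; `g n`: the number of ordered representations of `n` as a
sum of two primes; `HL n = sing n * n / log ^ 2 n`: the prediction of Hardy and Littlewood for `g n`;
`energy h x s`: the number of solutions of `s (v 1) + ... + s (v h) = s (w 1) + ... + s (w h)` with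
entries in `{1, ..., x}`.
-/

set_option autoImplicit false

namespace Pool.Agent.Results.MP_7b7e48_nt.SmallEnergyFamilies

open Finset Pool.Agent.H560R3.GB

/-- `n` is a sum of two distinct primes, and the number of its representations as a sum of two primes
agrees with the prediction of Hardy and Littlewood up to a relative error of at most `ε`. -/
def Holds (ε : ℝ) (n : ℕ) : Prop :=
  |(g n : ℝ) - HL n| ≤ ε * HL n ∧ ∃ p q : ℕ, p.Prime ∧ q.Prime ∧ p ≠ q ∧ p + q = n

open Classical in
/-- The number of `m ∈ {1, ..., x}` for which `Holds` fails for `s m`. -/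
noncomputable def failures (ε : ℝ) (x : ℕ) (s : ℕ → ℕ) : ℕ :=
  ((Icc 1 x).filter (fun m => ¬ Holds ε (s m))).card

/-- Let `h ≥ 1`, `B`, `C`, `U` and `ε > 0` be fixed, and let `N` be large. Let `s 1, ..., s x` be an
arbitrary family of even numbers in `[0, B N]` whose additive energy of order `h` is at most
`log ^ C N` times the least possible order of magnitude `x ^ (2 h) / N`. Then all but at most
`x / log ^ U N` of the `m ≤ x` have the property that `s m` is a sum of two distinct primes and that the
number of its representations as a sum of two primes agrees with the prediction of Hardy and Littlewood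
up to a relative error of at most `ε`. (For instance this applies to every `B_h[J]`-set of even numbers
up to `N` with at least `(N / log ^ C N) ^ (1 / h)` members.) -/
theorem result (h B C U : ℕ) (hh : 1 ≤ h) (ε : ℝ) (hε : 0 < ε) :
    ∃ N₀ : ℕ, ∀ N : ℕ, N₀ ≤ N → ∀ (x : ℕ) (s : ℕ → ℕ),
      (∀ m ∈ Icc 1 x, s m ≤ B * N ∧ Even (s m)) →
      (energy h x s : ℝ) * N ≤ Real.log N ^ C * (x : ℝ) ^ (2 * h) →
      (failures ε x s : ℝ) ≤ x / Real.log N ^ U := by
  classical
  obtain ⟨N₀, h0⟩ := Pool.Agent.W93.GB.fam h B C U hh ε hε
  refine ⟨N₀, fun N hN x s hs hE => ?_⟩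
  unfold failures
  apply h0 N hN x s (fun m hm => ⟨(hs m hm).1, (hs m hm).2.two_dvd⟩) hE _ (filter_subset _ _)
  intro m hm
  exact (mem_filter.1 hm).2

end Pool.Agent.Results.MP_7b7e48_nt.SmallEnergyFamilies
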